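import Pool.Agent.H20.SPL.EntranceOrderProof

set_option autoImplicit false

namespace Pool.Agent.Results.MP_8dea01_co.EntranceOrder

open Filter Topology

/-- For every box size `β ≥ 2` the optimal rate with known entrance order, no output memory and no
look-ahead equals the optimal rate of a box of size `β - 1` knowing only the state and the last
output; both equal `log₂ λ`, where `λ ^ (β-1) - λ ^ (β-2) - 1 = 0`. -/
theorem result (β : ℕ) (hβ : 2 ≤ β) :
    ∃ lam : ℝ, 1 < lam ∧ lam ^ (β - 1) - lam ^ (β - 2) - 1 = 0 ∧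
      Tendsto (fun n : ℕ => Real.logb 2 (minOrd 0 β 0 n) / n) atTop (𝓝 (Real.logb 2 lam)) ∧
      Tendsto (fun n : ℕ => Real.logb 2 (minState 1 (β - 1) 0 n) / n) atTop
        (𝓝 (Real.logb 2 lam)) :=
  result_proof β hβ

end Pool.Agent.Results.MP_8dea01_co.EntranceOrder
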